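import Pool.Agent.N343.AS.Stm

/-!
Project AS (helper343), CRA: from the achievement set to the criterion (helper712)
-/

set_option autoImplicit false

open Filter Topology MeasureTheory Finset

namespace Pool.Agent.N712.AS

open Pool.Agent.N343.AS

lemma abs_le (b : ℕ → Bool) (M : ℕ) :
    |∑ k ∈ range (2 * M), if b k then (-1 : ℤ) ^ k else 0| ≤ M := by
  induction M with
  | zero => simp
  | succ M ih =>
    have e : 2 * (M + 1) = 2 * M + 1 + 1 := by ring
    have h1 : (-1 : ℤ) ^ (2 * M) = 1 := by rw [pow_mul]; norm_num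
    have h2 : (-1 : ℤ) ^ (2 * M + 1) = -1 := by rw [pow_succ, h1]; norm_num
    rw [e, sum_range_succ, sum_range_succ, h1, h2]
    rw [_root_.abs_le] at ih ⊢
    push_cast
    constructor <;> split_ifs <;> linarith [ih.1, ih.2]

theorem main : S_CRA := by
  intro n c X A hH x hx p hp
  obtain ⟨ε, hε⟩ := hp
  obtain ⟨y, hy⟩ : ∃ y : ℕ → ℝ × ℝ, y = fun m => if ε m then x m else 0 := ⟨_, rfl⟩
  obtain ⟨S, hS⟩ : ∃ S : ℕ → Finset ℕ, S = fun N => (range (n N)).filter
      (fun k => ε (st n A N + k) = true) := ⟨_, rfl⟩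
  obtain ⟨j, hj⟩ : ∃ j : ℕ → ℤ, j = fun N => ∑ k ∈ range (2 * MM A N),
      if ε (st n A N + n N + k) then (-1 : ℤ) ^ k else 0 := ⟨_, rfl⟩
  have hstep : ∀ K, st n A (K + 1) = st n A K + (n K + 2 * MM A K) := by
    intro K
    unfold st
    rw [sum_range_succ]
  have hst : Tendsto (st n A) atTop atTop := by
    refine (strictMono_nat_of_lt_succ fun K => ?_).tendsto_atTop
    have := hH.npos K
    rw [hstep K]
    omega
  have h1 : ∀ K, ∑ k ∈ range (n K), y (st n A K + k) = (∑ k ∈ S K, c K k, 0) := by
    intro K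
    have e : ∀ k ∈ range (n K), y (st n A K + k) =
        ((if ε (st n A K + k) = true then c K k else 0 : ℝ), (0 : ℝ)) := by
      intro k hk
      rw [hy]
      dsimp only
      rw [(hx K).1 k (mem_range.1 hk)]
      split_ifs
      · rfl
      · rfl
    rw [sum_congr rfl e]
    refine Prod.ext ?_ ?_
    · rw [Prod.fst_sum]
      dsimp only
      rw [hS]
      dsimp only
      rw [sum_filter]
    · rw [Prod.snd_sum]
      dsimp only
      exact sum_const_zero
  have h2 : ∀ K, ∑ k ∈ range (2 * MM A K), y (st n A K + n K + k) =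
      ((j K : ℝ) * X K, (j K : ℝ) * (1 / 2) ^ K) := by
    intro K
    have e : ∀ k ∈ range (2 * MM A K), y (st n A K + n K + k) =
        (((if ε (st n A K + n K + k) then (-1 : ℤ) ^ k else 0 : ℤ) : ℝ) * X K,
          ((if ε (st n A K + n K + k) then (-1 : ℤ) ^ k else 0 : ℤ) : ℝ) * (1 / 2) ^ K) := by
      intro k hk
      rw [hy]
      dsimp only
      rw [(hx K).2 k (mem_range.1 hk)]
      split_ifs
      · push_cast
        rfl
      · push_cast
        rw [zero_mul, zero_mul]
        rfl
    rw [sum_congr rfl e]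
    refine Prod.ext ?_ ?_
    · rw [Prod.fst_sum]
      dsimp only
      rw [← sum_mul, hj]
      push_cast
      rfl
    · rw [Prod.snd_sum]
      dsimp only
      rw [← sum_mul, hj]
      push_cast
      rfl
  have hpart : ∀ K, ∑ m ∈ range (st n A K), y m =
      (∑ N ∈ range K, (∑ k ∈ S N, c N k + (j N : ℝ) * X N),
        ∑ N ∈ range K, (j N : ℝ) * (1 / 2) ^ N) := by
    intro K
    induction K with
    | zero =>
      have : st n A 0 = 0 := by
        unfold st
        simp
      rw [this]
      simp only [range_zero, sum_empty]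
      rfl
    | succ K ih =>
      have h3 : ∑ k ∈ range (2 * MM A K), y (st n A K + (n K + k)) =
          ((j K : ℝ) * X K, (j K : ℝ) * (1 / 2) ^ K) := by
        rw [← h2 K]
        refine sum_congr rfl fun k _ => ?_
        rw [add_assoc]
      rw [hstep, sum_range_add, sum_range_add, ih, h1, h3, sum_range_succ, sum_range_succ]
      refine Prod.ext ?_ ?_
      · simp only [Prod.fst_add]
      · simp only [Prod.snd_add]
        ring
  have hlim : Tendsto (fun K => ∑ m ∈ range (st n A K), y m) atTop (𝓝 p) := by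
    rw [hy]
    exact hε.comp hst
  simp only [hpart] at hlim
  refine ⟨S, j, fun N => ?_, fun N => ?_, ?_, ?_⟩
  · rw [hS]
    exact filter_subset _ _
  · rw [hj]
    exact abs_le (fun k => ε (st n A N + n N + k)) (MM A N)
  · exact (continuous_fst.tendsto p).comp hlim
  · exact (continuous_snd.tendsto p).comp hlim

end Pool.Agent.N712.AS
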